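import Mathlib

/-!
# MP_e3e9ef_lc : Mobius pattern complexity versus Mobius sparsity

The Boolean functions `f_N (x, y) = ∑_{j<N} (x_0 ⋯ x_{j-1} - x_0 ⋯ x_j) y_j` on `2N` variables
have Mobius sparsity `2N` and at least `2 ^ N` Mobius patterns. So no bound
`Pat ≤ 2 ^ (C * spar ^ (1 - δ))` holds.
-/

namespace Pool.Agent.Results.MP_e3e9ef_lc.MobiusPatterns

open Finset

/-- The value `∏_{i ∈ S} x_i`, as a real number. -/
noncomputable def mono {n : ℕ} (S : Finset (Fin n)) (x : Fin n → Bool) : ℝ :=
  ∏ i ∈ S, (if x i = true then (1 : ℝ) else 0)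

/-- `c` is the family of coefficients of the multilinear representation of the Boolean
function `f` in the AND basis. -/
def IsMobius {n : ℕ} (f : (Fin n → Bool) → Bool) (c : Finset (Fin n) → ℝ) : Prop :=
  ∀ x, (if f x = true then (1 : ℝ) else 0) = ∑ S, c S * mono S x

/-- The number of nonzero coefficients. -/
noncomputable def spar {n : ℕ} (c : Finset (Fin n) → ℝ) : ℕ := {S | c S ≠ 0}.ncard

/-- The pattern of `x`: the values `AND_S x` for the sets `S` in the support of `c`. -/
noncomputable def pattern {n : ℕ} (c : Finset (Fin n) → ℝ) (x : Fin n → Bool) :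
    {S | c S ≠ 0} → Prop := fun S => ∀ i ∈ S.1, x i = true

/-- The number of distinct patterns. -/
noncomputable def pat {n : ℕ} (c : Finset (Fin n) → ℝ) : ℕ := (Set.range (pattern c)).ncard

/-! ### Existence and uniqueness of the representation -/

lemma mono_ind {n : ℕ} (S T : Finset (Fin n)) :
    mono S (fun i => decide (i ∈ T)) = if S ⊆ T then 1 else 0 := by
  unfold mono
  by_cases h : S ⊆ T
  · rw [if_pos h]
    refine Finset.prod_eq_one ?_
    intro i hi
    simp [h hi]
  · rw [if_neg h]
    obtain ⟨i, hi, hiT⟩ := Finset.not_subset.1 h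
    refine Finset.prod_eq_zero hi ?_
    simp [hiT]

lemma eq_zero_of {n : ℕ} (d : Finset (Fin n) → ℝ) (h : ∀ x, ∑ S, d S * mono S x = 0) :
    d = 0 := by
  funext T
  induction T using Finset.strongInduction with
  | H T ih =>
    have h1 := h (fun i => decide (i ∈ T))
    rw [Finset.sum_eq_single T] at h1
    · rw [mono_ind, if_pos (Finset.Subset.refl T), mul_one] at h1
      simpa using h1
    · intro S _ hS
      rw [mono_ind]
      by_cases hST : S ⊆ T
      · rw [ih S (Finset.ssubset_iff_subset_ne.2 ⟨hST, hS⟩)]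
        simp
      · rw [if_neg hST, mul_zero]
    · intro hT
      exact absurd (Finset.mem_univ T) hT

lemma unique_mobius {n : ℕ} {f : (Fin n → Bool) → Bool} {c c' : Finset (Fin n) → ℝ}
    (h : IsMobius f c) (h' : IsMobius f c') : c' = c := by
  have : (fun S => c' S - c S) = 0 := by
    apply eq_zero_of
    intro x
    simp only [sub_mul, Finset.sum_sub_distrib]
    rw [← h x, ← h' x, sub_self]
  funext S
  have h2 := congrFun this S
  simp only [Pi.zero_apply] at h2
  linarith

lemma exists_mobius {n : ℕ} (f : (Fin n → Bool) → Bool) :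
    ∃ c : Finset (Fin n) → ℝ, IsMobius f c := by
  let L : (Finset (Fin n) → ℝ) →ₗ[ℝ] ((Fin n → Bool) → ℝ) :=
    { toFun := fun c x => ∑ S, c S * mono S x
      map_add' := by
        intro c d
        funext x
        simp [add_mul, Finset.sum_add_distrib]
      map_smul' := by
        intro r c
        funext x
        simp [Finset.mul_sum, mul_assoc] }
  have hinj : Function.Injective L := by
    rw [← LinearMap.ker_eq_bot, LinearMap.ker_eq_bot']
    intro d hd
    exact eq_zero_of d (fun x => congrFun hd x)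
  have hsurj : Function.Surjective L := by
    refine (LinearMap.injective_iff_surjective_of_finrank_eq_finrank ?_).1 hinj
    simp
  obtain ⟨c, hc⟩ := hsurj (fun x => if f x = true then (1 : ℝ) else 0)
  exact ⟨c, fun x => (congrFun hc x).symm⟩

/-! ### The decision list -/

/-- The variable `x_i`. -/
def vx {N : ℕ} (i : Fin N) : Fin (N + N) := Fin.castAdd N i

/-- The variable `y_i`. -/
def vy {N : ℕ} (i : Fin N) : Fin (N + N) := Fin.natAdd N i

/-- `{x_i : i < j} ∪ {y_j}`. -/
def setA {N : ℕ} (j : Fin N) : Finset (Fin (N + N)) :=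
  insert (vy j) ((univ.filter (fun i : Fin N => i < j)).image vx)

/-- `{x_i : i ≤ j} ∪ {y_j}`. -/
def setB {N : ℕ} (j : Fin N) : Finset (Fin (N + N)) :=
  insert (vy j) ((univ.filter (fun i : Fin N => i ≤ j)).image vx)

/-- The decision list: the value is `y_j` for the first `j` with `x_j = 0`. -/
def fN (N : ℕ) (z : Fin (N + N) → Bool) : Bool :=
  decide (∃ j : Fin N, (∀ i < j, z (vx i) = true) ∧ z (vx j) = false ∧ z (vy j) = true)

noncomputable def cN (N : ℕ) (S : Finset (Fin (N + N))) : ℝ :=
  ∑ j : Fin N, ((if S = setA j then 1 else 0) - (if S = setB j then 1 else 0))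

lemma vy_ne_vx {N : ℕ} (i j : Fin N) : vy i ≠ vx j := by
  intro h
  have := congrArg Fin.val h
  simp [vx, vy] at this
  omega

lemma vx_inj {N : ℕ} {i j : Fin N} (h : vx i = vx j) : i = j := by
  have := congrArg Fin.val h
  simp [vx] at this
  exact Fin.ext this

lemma vy_inj {N : ℕ} {i j : Fin N} (h : vy i = vy j) : i = j := by
  have := congrArg Fin.val h
  simp [vy] at this
  exact Fin.ext this

lemma mono_setA {N : ℕ} (j : Fin N) (z : Fin (N + N) → Bool) :
    mono (setA j) z = if ((∀ i < j, z (vx i) = true) ∧ z (vy j) = true) then 1 else 0 := by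
  unfold mono
  by_cases h : (∀ i < j, z (vx i) = true) ∧ z (vy j) = true
  · rw [if_pos h]
    refine Finset.prod_eq_one ?_
    intro i hi
    simp only [setA, Finset.mem_insert, Finset.mem_image, Finset.mem_filter,
      Finset.mem_univ, true_and] at hi
    rcases hi with rfl | ⟨a, ha, rfl⟩
    · simp [h.2]
    · simp [h.1 a ha]
  · rw [if_neg h]
    by_cases h2 : z (vy j) = true
    · have h3 : ∃ i < j, z (vx i) ≠ true := by
        by_contra hno
        push Not at hno
        exact h ⟨hno, h2⟩
      obtain ⟨i, hi, hzi⟩ := h3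
      refine Finset.prod_eq_zero (i := vx i) ?_ ?_
      · simp only [setA, Finset.mem_insert, Finset.mem_image, Finset.mem_filter,
          Finset.mem_univ, true_and]
        exact Or.inr ⟨i, hi, rfl⟩
      · rw [if_neg hzi]
    · refine Finset.prod_eq_zero (i := vy j) ?_ ?_
      · simp [setA]
      · rw [if_neg h2]

lemma mono_setB {N : ℕ} (j : Fin N) (z : Fin (N + N) → Bool) :
    mono (setB j) z = if ((∀ i ≤ j, z (vx i) = true) ∧ z (vy j) = true) then 1 else 0 := by
  unfold mono
  by_cases h : (∀ i ≤ j, z (vx i) = true) ∧ z (vy j) = true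
  · rw [if_pos h]
    refine Finset.prod_eq_one ?_
    intro i hi
    simp only [setB, Finset.mem_insert, Finset.mem_image, Finset.mem_filter,
      Finset.mem_univ, true_and] at hi
    rcases hi with rfl | ⟨a, ha, rfl⟩
    · simp [h.2]
    · simp [h.1 a ha]
  · rw [if_neg h]
    by_cases h2 : z (vy j) = true
    · have h3 : ∃ i ≤ j, z (vx i) ≠ true := by
        by_contra hno
        push Not at hno
        exact h ⟨hno, h2⟩
      obtain ⟨i, hi, hzi⟩ := h3
      refine Finset.prod_eq_zero (i := vx i) ?_ ?_
      · simp only [setB, Finset.mem_insert, Finset.mem_image, Finset.mem_filter,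
          Finset.mem_univ, true_and]
        exact Or.inr ⟨i, hi, rfl⟩
      · rw [if_neg hzi]
    · refine Finset.prod_eq_zero (i := vy j) ?_ ?_
      · simp [setB]
      · rw [if_neg h2]

lemma mono_diff {N : ℕ} (j : Fin N) (z : Fin (N + N) → Bool) :
    mono (setA j) z - mono (setB j) z =
      if ((∀ i < j, z (vx i) = true) ∧ z (vx j) = false ∧ z (vy j) = true) then 1 else 0 := by
  rw [mono_setA, mono_setB]
  by_cases h1 : ∀ i < j, z (vx i) = true
  · by_cases h2 : z (vy j) = true
    · by_cases h3 : z (vx j) = true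
      · have h4 : ∀ i ≤ j, z (vx i) = true := by
          intro i hi
          rcases hi.lt_or_eq with h | h
          · exact h1 i h
          · rw [h]; exact h3
        rw [if_pos ⟨h1, h2⟩, if_pos ⟨h4, h2⟩, if_neg]
        · simp
        · rintro ⟨_, h5, _⟩
          rw [h3] at h5
          exact absurd h5 (by simp)
      · rw [if_pos ⟨h1, h2⟩, if_neg, if_pos]
        · simp
        · exact ⟨h1, by simpa using h3, h2⟩
        · rintro ⟨h5, _⟩
          exact h3 (h5 j le_rfl)
    · rw [if_neg (fun h => h2 h.2), if_neg (fun h => h2 h.2), if_neg (fun h => h2 h.2.2)]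
      simp
  · rw [if_neg (fun h => h1 h.1), if_neg (fun h => h1 (fun i hi => h.1 i hi.le)),
      if_neg (fun h => h1 h.1)]
    simp

lemma isMobius_fN (N : ℕ) : IsMobius (fN N) (cN N) := by
  intro z
  have h1 : ∑ S, cN N S * mono S z = ∑ j : Fin N, (mono (setA j) z - mono (setB j) z) := by
    simp only [cN, Finset.sum_mul]
    rw [Finset.sum_comm]
    refine Finset.sum_congr rfl ?_
    intro j _
    simp only [sub_mul, Finset.sum_sub_distrib, ite_mul, one_mul, zero_mul]
    simp
  rw [h1]
  simp only [mono_diff]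
  by_cases h : ∃ j : Fin N, (∀ i < j, z (vx i) = true) ∧ z (vx j) = false ∧ z (vy j) = true
  · have hf : fN N z = true := by simpa [fN] using h
    rw [if_pos hf]
    obtain ⟨j, hj⟩ := h
    rw [Finset.sum_eq_single j]
    · rw [if_pos hj]
    · intro i _ hij
      rw [if_neg]
      rintro ⟨ha, hb, _⟩
      rcases lt_or_gt_of_ne hij with hlt | hlt
      · rw [hj.1 i hlt] at hb
        exact absurd hb (by simp)
      · have := ha j hlt
        rw [hj.2.1] at this
        exact absurd this (by simp)
    · intro hno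
      exact absurd (Finset.mem_univ j) hno
  · have hf : ¬ fN N z = true := by
      intro hf
      exact h (by simpa [fN] using hf)
    rw [if_neg hf]
    symm
    refine Finset.sum_eq_zero ?_
    intro j _
    rw [if_neg]
    intro hj
    exact h ⟨j, hj⟩

lemma setA_inj {N : ℕ} {i j : Fin N} (h : setA i = setA j) : i = j := by
  have h1 : vy i ∈ setA j := by
    rw [← h]
    simp [setA]
  simp only [setA, Finset.mem_insert, Finset.mem_image, Finset.mem_filter,
    Finset.mem_univ, true_and] at h1
  rcases h1 with h1 | ⟨a, _, ha⟩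
  · exact vy_inj h1
  · exact absurd ha.symm (vy_ne_vx i a)

lemma setA_ne_setB {N : ℕ} (i j : Fin N) : setA i ≠ setB j := by
  intro h
  have h1 : vy i ∈ setB j := by
    rw [← h]
    simp [setA]
  have h0 : i = j := by
    simp only [setB, Finset.mem_insert, Finset.mem_image, Finset.mem_filter,
      Finset.mem_univ, true_and] at h1
    rcases h1 with h1 | ⟨a, _, ha⟩
    · exact vy_inj h1
    · exact absurd ha.symm (vy_ne_vx i a)
  subst h0
  have h2 : vx i ∈ setA i := by
    rw [h]
    simp only [setB, Finset.mem_insert, Finset.mem_image, Finset.mem_filter,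
      Finset.mem_univ, true_and]
    exact Or.inr ⟨i, le_rfl, rfl⟩
  simp only [setA, Finset.mem_insert, Finset.mem_image, Finset.mem_filter,
    Finset.mem_univ, true_and] at h2
  rcases h2 with h2 | ⟨a, ha, ha2⟩
  · exact vy_ne_vx i i h2.symm
  · have := vx_inj ha2
    subst this
    exact lt_irrefl _ ha

lemma cN_setA {N : ℕ} (j : Fin N) : cN N (setA j) = 1 := by
  unfold cN
  rw [Finset.sum_eq_single j]
  · rw [if_pos rfl, if_neg (setA_ne_setB j j)]
    simp
  · intro i _ hij
    rw [if_neg (fun h => hij (setA_inj h).symm), if_neg (setA_ne_setB j i)]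
    simp
  · intro hno
    exact absurd (Finset.mem_univ j) hno

lemma spar_le (N : ℕ) : spar (cN N) ≤ 2 * N := by
  have hsub : {S | cN N S ≠ 0} ⊆
      (((univ : Finset (Fin N)).image setA ∪ (univ : Finset (Fin N)).image setB :
        Finset (Finset (Fin (N + N)))) : Set (Finset (Fin (N + N)))) := by
    intro S hS
    by_contra hno
    apply hS
    simp only [Finset.coe_union, Finset.coe_image, Set.mem_union, Set.mem_image,
      Finset.coe_univ, Set.mem_univ, true_and, not_or, not_exists] at hno
    unfold cN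
    refine Finset.sum_eq_zero ?_
    intro j _
    rw [if_neg (fun h => hno.1 j h.symm), if_neg (fun h => hno.2 j h.symm)]
    simp
  unfold spar
  refine (Set.ncard_le_ncard hsub (Finset.finite_toSet _)).trans ?_
  rw [Set.ncard_coe_finset]
  refine (Finset.card_union_le _ _).trans ?_
  have h1 : ((univ : Finset (Fin N)).image setA).card ≤ N :=
    Finset.card_image_le.trans (by simp)
  have h2 : ((univ : Finset (Fin N)).image setB).card ≤ N :=
    Finset.card_image_le.trans (by simp)
  omega

lemma le_spar (N : ℕ) : N ≤ spar (cN N) := by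
  have hsub : (((univ : Finset (Fin N)).image setA : Finset (Finset (Fin (N + N)))) :
      Set (Finset (Fin (N + N)))) ⊆ {S | cN N S ≠ 0} := by
    intro S hS
    simp only [Finset.coe_image, Set.mem_image, Finset.coe_univ, Set.mem_univ,
      true_and] at hS
    obtain ⟨j, rfl⟩ := hS
    simp [cN_setA]
  have h1 := Set.ncard_le_ncard hsub (Set.toFinite _)
  rw [Set.ncard_coe_finset, Finset.card_image_of_injective _ (fun _ _ h => setA_inj h),
    Finset.card_univ, Fintype.card_fin] at h1
  exact h1

/-- The input with all `x_i = 1` and with prescribed `y`. -/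
def inp {N : ℕ} (y : Fin N → Bool) : Fin (N + N) → Bool := Fin.append (fun _ => true) y

lemma inp_vy {N : ℕ} (y : Fin N → Bool) (j : Fin N) : inp y (vy j) = y j :=
  Fin.append_right _ _ _

lemma inp_vx {N : ℕ} (y : Fin N → Bool) (j : Fin N) : inp y (vx j) = true :=
  Fin.append_left _ _ _

lemma le_pat (N : ℕ) : 2 ^ N ≤ pat (cN N) := by
  have hinj : Function.Injective (fun y : Fin N → Bool => pattern (cN N) (inp y)) := by
    intro y y' h
    funext j
    have h1 : setA j ∈ {S | cN N S ≠ 0} := by simp [cN_setA]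
    have key : ∀ y : Fin N → Bool, pattern (cN N) (inp y) ⟨setA j, h1⟩ ↔ y j = true := by
      intro y
      unfold pattern
      constructor
      · intro hy
        have := hy (vy j) (by simp [setA])
        rwa [inp_vy] at this
      · intro hy i hi
        simp only [setA, Finset.mem_insert, Finset.mem_image, Finset.mem_filter,
          Finset.mem_univ, true_and] at hi
        rcases hi with rfl | ⟨a, ha, rfl⟩
        · rwa [inp_vy]
        · exact inp_vx y a
    have h2 : pattern (cN N) (inp y) ⟨setA j, h1⟩ = pattern (cN N) (inp y') ⟨setA j, h1⟩ :=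
      congrFun h ⟨setA j, h1⟩
    have h3 : (y j = true) ↔ (y' j = true) := by
      rw [← key y, ← key y', h2]
    exact Bool.eq_iff_iff.2 h3
  have hsub : Set.range (fun y : Fin N → Bool => pattern (cN N) (inp y)) ⊆
      Set.range (pattern (cN N)) := by
    rintro _ ⟨y, rfl⟩
    exact ⟨inp y, rfl⟩
  have h1 := Set.ncard_le_ncard hsub (Set.toFinite _)
  have h2 : (Set.range (fun y : Fin N → Bool => pattern (cN N) (inp y))).ncard = 2 ^ N := by
    rw [← Set.image_univ, Set.ncard_image_of_injective _ hinj, Set.ncard_univ]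
    simp
  unfold pat
  rw [← h2]
  exact h1

/-- Every Boolean function has exactly one family of Mobius coefficients; for every `N` there is
a Boolean function on `2N` variables with Mobius sparsity between `N` and `2N` and with at least
`2 ^ N` Mobius patterns; and hence there are no constants `δ, C > 0` such that every Boolean
function has at most `2 ^ (C * spar ^ (1 - δ))` Mobius patterns. -/
theorem result :
    (∀ (n : ℕ) (f : (Fin n → Bool) → Bool), ∃! c : Finset (Fin n) → ℝ, IsMobius f c) ∧
    (∀ N : ℕ, ∃ (f : (Fin (N + N) → Bool) → Bool) (c : Finset (Fin (N + N)) → ℝ),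
      IsMobius f c ∧ N ≤ spar c ∧ spar c ≤ 2 * N ∧ 2 ^ N ≤ pat c) ∧
    ¬ ∃ δ : ℝ, 0 < δ ∧ ∃ C : ℝ, 0 < C ∧
      ∀ (n : ℕ) (f : (Fin n → Bool) → Bool) (c : Finset (Fin n) → ℝ), IsMobius f c →
        (pat c : ℝ) ≤ (2 : ℝ) ^ (C * (spar c : ℝ) ^ (1 - δ)) := by
  refine ⟨?_, ?_, ?_⟩
  · intro n f
    obtain ⟨c, hc⟩ := exists_mobius f
    exact ⟨c, hc, fun c' hc' => unique_mobius hc hc'⟩
  · intro N
    exact ⟨fN N, cN N, isMobius_fN N, le_spar N, spar_le N, le_pat N⟩
  · rintro ⟨δ, hδ, C, hC, h⟩
    have hlim : Filter.Tendsto (fun N : ℕ => 2 * C * (N : ℝ) ^ (-δ)) Filter.atTop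
        (nhds (2 * C * 0)) :=
      ((tendsto_rpow_neg_atTop hδ).comp tendsto_natCast_atTop_atTop).const_mul (2 * C)
    rw [mul_zero] at hlim
    have hev := (hlim.eventually (gt_mem_nhds (show (0 : ℝ) < 1 by norm_num))).and
      (Filter.eventually_ge_atTop 1)
    obtain ⟨N, hN1, hN2⟩ := hev.exists
    have hNpos : (0 : ℝ) < N := by exact_mod_cast hN2
    have h1 := h (N + N) (fN N) (cN N) (isMobius_fN N)
    have h2 : (2 : ℝ) ^ (N : ℝ) ≤ (pat (cN N) : ℝ) := by
      rw [Real.rpow_natCast]
      exact_mod_cast le_pat N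
    have h3 : (N : ℝ) ≤ C * (spar (cN N) : ℝ) ^ (1 - δ) :=
      (Real.rpow_le_rpow_left_iff (by norm_num : (1 : ℝ) < 2)).1 (h2.trans h1)
    have hsp1 : (N : ℝ) ≤ spar (cN N) := by exact_mod_cast le_spar N
    have hsp2 : (spar (cN N) : ℝ) ≤ 2 * N := by exact_mod_cast spar_le N
    have hsp0 : (0 : ℝ) < spar (cN N) := lt_of_lt_of_le hNpos hsp1
    have h4 : (spar (cN N) : ℝ) ^ (1 - δ) ≤ 2 * N * (N : ℝ) ^ (-δ) := by
      rw [sub_eq_add_neg, Real.rpow_add hsp0, Real.rpow_one]
      refine mul_le_mul hsp2 ?_ (Real.rpow_nonneg hsp0.le _) (by positivity)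
      exact Real.rpow_le_rpow_of_nonpos hNpos hsp1 (by linarith)
    have h5 : C * (spar (cN N) : ℝ) ^ (1 - δ) ≤ C * (2 * N * (N : ℝ) ^ (-δ)) :=
      mul_le_mul_of_nonneg_left h4 hC.le
    have h6 : C * (2 * N * (N : ℝ) ^ (-δ)) = (2 * C * (N : ℝ) ^ (-δ)) * N := by ring
    have h7 : (2 * C * (N : ℝ) ^ (-δ)) * N < 1 * N := mul_lt_mul_of_pos_right hN1 hNpos
    linarith

end Pool.Agent.Results.MP_e3e9ef_lc.MobiusPatterns
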